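import Mathlib

/-! Good induced paths on four points in a symmetric 0/1 matrix with midpoints.
Component free version of note 7046 (helper44), see note 7091. -/

namespace Pool.Agent.H56.P4

variable {X : Type*}

/-- induced path on four points -/
def IsP4 (M : X → X → Bool) (a b c d : X) : Prop :=
  M a b = true ∧ M b c = true ∧ M c d = true ∧ M a c = false ∧ M a d = false ∧ M b d = false

def HasP4 (M : X → X → Bool) (D : Set X) : Prop :=
  ∃ a b c d, a ∈ D ∧ b ∈ D ∧ c ∈ D ∧ d ∈ D ∧ IsP4 M a b c d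

def Cyl (M : X → X → Bool) (D : Set X) : Prop :=
  ∃ S : Set (X × Bool), D = {y | ∀ s ∈ S, M y s.1 = s.2}

/-- every closed pair has a midpoint -/
def Pairs (M : X → X → Bool) : Prop :=
  ∀ u v, M u u = M v v → M u v = !M u u →
    ∃ g, M g g = !M u u ∧ M g u = !M u u ∧ M g v = !M u u ∧
      ∀ y, M u y = M v y → M g y = M u y

/-- the row of `b` on `D` is inclusion maximal -/
def Mx (M : X → X → Bool) (D : Set X) (b : X) : Prop :=
  b ∈ D ∧ ∀ c ∈ D, (∃ z ∈ D, M c z = true ∧ M b z = false) →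
    ∃ y ∈ D, M b y = true ∧ M c y = false

def Root (M : X → X → Bool) (D : Set X) (r : X) : Prop :=
  r ∈ D ∧ ∀ y ∈ D, M r y = M r r

theorem cyl_cut {M : X → X → Bool} {D : Set X} (h : Cyl M D) (w : X) (t : Bool) :
    Cyl M {y | y ∈ D ∧ M y w = t} := by
  obtain ⟨S, rfl⟩ := h
  refine ⟨insert (w, t) S, ?_⟩
  ext y
  simp only [Set.mem_setOf_eq, Set.mem_insert_iff, forall_eq_or_imp]
  tauto

theorem cyl_univ (M : X → X → Bool) : Cyl M Set.univ :=
  ⟨∅, by ext y; simp⟩

theorem mid_in {M : X → X → Bool} {D : Set X} (hP : Pairs M) (h : Cyl M D) {u v : X}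
    (hu : u ∈ D) (hv : v ∈ D) (h1 : M u u = M v v) (h2 : M u v = !M u u) :
    ∃ g ∈ D, M g g = !M u u ∧ M g u = !M u u ∧ M g v = !M u u ∧
      ∀ y, M u y = M v y → M g y = M u y := by
  obtain ⟨S, rfl⟩ := h
  obtain ⟨g, a1, a2, a3, a4⟩ := hP u v h1 h2
  refine ⟨g, ?_, a1, a2, a3, a4⟩
  intro s hs
  have e1 := hu s hs
  have e2 := hv s hs
  rw [a4 s.1 (by rw [e1, e2]), e1]

theorem hasP4_mono {M : X → X → Bool} {D E : Set X} (h : D ⊆ E) (hD : HasP4 M D) :
    HasP4 M E := by
  obtain ⟨a, b, c, d, ha, hb, hc, hd, hh⟩ := hD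
  exact ⟨a, b, c, d, h ha, h hb, h hc, h hd, hh⟩

theorem exists_mx [Finite X] (M : X → X → Bool) (D : Set X) (c0 : X) (h0 : c0 ∈ D) :
    ∃ b ∈ D, (∀ y ∈ D, M c0 y = true → M b y = true) ∧ Mx M D b := by
  classical
  let T : Set X := {b | b ∈ D ∧ ∀ y ∈ D, M c0 y = true → M b y = true}
  have hT : T.Nonempty := ⟨c0, h0, fun y _ h => h⟩
  obtain ⟨b, hb, hmax⟩ := Set.exists_max_image T
    (fun b => ({y | y ∈ D ∧ M b y = true} : Set X).ncard) (Set.toFinite T) hT
  refine ⟨b, hb.1, hb.2, hb.1, ?_⟩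
  intro c hc hz
  by_contra hcon
  push Not at hcon
  obtain ⟨z, hzD, hz1, hz2⟩ := hz
  have hsub : ∀ y ∈ D, M b y = true → M c y = true := by
    intro y hy hby
    have := hcon y hy hby
    simpa using this
  have hcT : c ∈ T := ⟨hc, fun y hy h => hsub y hy (hb.2 y hy h)⟩
  have h1 := hmax c hcT
  have h2 : ({y | y ∈ D ∧ M b y = true} : Set X).ncard <
      ({y | y ∈ D ∧ M c y = true} : Set X).ncard := by
    apply Set.ncard_lt_ncard _ (Set.toFinite _)
    constructor
    · intro y hy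
      exact ⟨hy.1, hsub y hy.1 hy.2⟩
    · intro hh
      have := hh (show z ∈ {y | y ∈ D ∧ M c y = true} from ⟨hzD, hz1⟩)
      rw [this.2] at hz2
      exact Bool.noConfusion hz2
  omega

section
variable {M : X → X → Bool} (hs : ∀ u v, M u v = M v u) (hP : Pairs M)
include hs hP

theorem root_up {D : Set X} (hD : Cyl M D) {w x : X} (hw : w ∈ D) (hww : M w w = false)
    (hx : Root M {y | y ∈ D ∧ M y w = true} x) :
    x ∈ D ∧ M x x = true ∧ M x w = true ∧ ∀ y ∈ D, M w y = true → M x y = true := by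
  obtain ⟨⟨hxD, hxw⟩, hr⟩ := hx
  have hxx : M x x = true := by
    by_contra hc
    have hc : M x x = false := by simpa using hc
    obtain ⟨g, hg, g1, g2, g3, g4⟩ := mid_in hP hD hw hxD (by rw [hww, hc])
      (by rw [hs w x, hxw, hww]; rfl)
    rw [hww] at g1 g2 g3
    have := hr g ⟨hg, by simpa using g2⟩
    rw [hc, hs x g, g3] at this
    simp at this
  refine ⟨hxD, hxx, hxw, ?_⟩
  intro y hy hwy
  rw [hr y ⟨hy, by rw [hs y w, hwy]⟩, hxx]

theorem root_down {D : Set X} (hD : Cyl M D) {w x : X} (hw : w ∈ D) (hww : M w w = true)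
    (hx : Root M {y | y ∈ D ∧ M y w = false} x) :
    x ∈ D ∧ M x x = false ∧ M x w = false ∧ ∀ y ∈ D, M w y = false → M x y = false := by
  obtain ⟨⟨hxD, hxw⟩, hr⟩ := hx
  have hxx : M x x = false := by
    by_contra hc
    have hc : M x x = true := by simpa using hc
    obtain ⟨g, hg, g1, g2, g3, g4⟩ := mid_in hP hD hw hxD (by rw [hww, hc])
      (by rw [hs w x, hxw, hww]; rfl)
    rw [hww] at g1 g2 g3
    have := hr g ⟨hg, by simpa using g2⟩
    rw [hc, hs x g, g3] at this
    simp at this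
  refine ⟨hxD, hxx, hxw, ?_⟩
  intro y hy hwy
  rw [hr y ⟨hy, by rw [hs y w, hwy]⟩, hxx]

theorem exists_root [Finite X] : ∀ (n : ℕ) (D : Set X), D.ncard ≤ n → Cyl M D → D.Nonempty →
    ¬ HasP4 M D → ∃ r, Root M D r := by
  intro n
  induction n with
  | zero =>
    intro D hn _ hne _
    have := (Set.ncard_pos (Set.toFinite D)).2 hne
    omega
  | succ n ih =>
    intro D hn hD hne hfree
    -- smaller cylinders
    have small : ∀ (w : X) (t : Bool), (∃ y ∈ D, M y w ≠ t) → (∃ y ∈ D, M y w = t) →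
        ∃ r, Root M {y | y ∈ D ∧ M y w = t} r := by
      intro w t ⟨y, hy, hyt⟩ ⟨z, hz, hzt⟩
      apply ih _ _ (cyl_cut hD w t) ⟨z, hz, hzt⟩
      · intro h
        exact hfree (hasP4_mono (fun y hy => hy.1) h)
      · have : ({y | y ∈ D ∧ M y w = t} : Set X).ncard < D.ncard := by
          apply Set.ncard_lt_ncard _ (Set.toFinite _)
          refine ⟨fun y hy => hy.1, fun hh => hyt (hh hy).2⟩
        omega
    obtain ⟨c0, hc0⟩ := hne
    obtain ⟨b, hbD, -, hb⟩ := exists_mx M D c0 hc0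
    by_cases hroot : ∀ y ∈ D, M b y = M b b
    · exact ⟨b, hbD, hroot⟩
    push Not at hroot
    obtain ⟨y0, hy0, hy0b⟩ := hroot
    by_cases hbb : M b b = true
    · -- full row impossible
      have hy0f : M b y0 = false := by
        rw [hbb] at hy0b; simpa using hy0b
      obtain ⟨x, hx⟩ := small b false ⟨b, hbD, by rw [hbb]; simp⟩
        ⟨y0, hy0, by rw [hs y0 b, hy0f]⟩
      obtain ⟨hxD, hxx, hxb, hxd⟩ := root_down hs hP hD hbD hbb hx
      by_cases hx0 : ∀ y ∈ D, M x y = false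
      · exact ⟨x, hxD, fun y hy => by rw [hx0 y hy, hxx]⟩
      push Not at hx0
      obtain ⟨y1, hy1, hy1x⟩ := hx0
      have hy1x : M x y1 = true := by simpa using hy1x
      obtain ⟨p, hp⟩ := small x true ⟨x, hxD, by rw [hxx]; simp⟩
        ⟨y1, hy1, by rw [hs y1 x, hy1x]⟩
      obtain ⟨hpD, hpp, hpx, hpu⟩ := root_up hs hP hD hxD hxx hp
      have hbp : M b p = true := by
        by_contra hc
        have hc : M b p = false := by simpa using hc
        have := hxd p hpD hc
        rw [hs x p, hpx] at this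
        exact Bool.noConfusion this
      obtain ⟨y, hy, hby, hpy⟩ := hb.2 p hpD ⟨x, hxD, hpx, by rw [hs b x, hxb]⟩
      have hyx : M y x = false := by
        by_contra hc
        have hc : M y x = true := by simpa using hc
        have := hpu y hy (by rw [hs x y, hc])
        rw [hpy] at this
        exact Bool.noConfusion this
      exact (hfree ⟨y, b, p, x, hy, hbD, hpD, hxD, by rw [hs y b, hby], hbp, hpx,
        by rw [hs y p, hpy], hyx, by rw [hs b x, hxb]⟩).elim
    · have hbb : M b b = false := by simpa using hbb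
      have hy0t : M b y0 = true := by
        rw [hbb] at hy0b; simpa using hy0b
      obtain ⟨x, hx⟩ := small b true ⟨b, hbD, by rw [hbb]; simp⟩
        ⟨y0, hy0, by rw [hs y0 b, hy0t]⟩
      obtain ⟨hxD, hxx, hxb, hxu⟩ := root_up hs hP hD hbD hbb hx
      obtain ⟨y, hy, hby, hxy⟩ := hb.2 x hxD ⟨b, hbD, hxb, hbb⟩
      have := hxu y hy hby
      rw [hxy] at this
      exact Bool.noConfusion this

theorem root [Finite X] {D : Set X} (hD : Cyl M D) (hne : D.Nonempty) (hf : ¬ HasP4 M D) :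
    ∃ r, Root M D r :=
  exists_root hs hP D.ncard D le_rfl hD hne hf

/-- step (1) -/
theorem plus [Finite X] {D : Set X} (hD : Cyl M D) {w : X} (hw : w ∈ D) (hww : M w w = false)
    (hn : ∃ y ∈ D, M w y = true) (hf : ¬ HasP4 M {y | y ∈ D ∧ M y w = true}) :
    ∃ p ∈ D, M p p = true ∧ M p w = true ∧ ∀ y ∈ D, M w y = true → M p y = true := by
  obtain ⟨y, hy, hwy⟩ := hn
  obtain ⟨x, hx⟩ := root hs hP (cyl_cut hD w true) ⟨y, hy, by rw [hs y w, hwy]⟩ hf
  obtain ⟨h1, h2, h3, h4⟩ := root_up hs hP hD hw hww hx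
  exact ⟨x, h1, h2, h3, h4⟩

theorem mx_loop [Finite X] {D : Set X} (hD : Cyl M D) {b : X} (hb : Mx M D b)
    (hn : ∃ y ∈ D, M b y = true)
    (hf : M b b = false → ¬ HasP4 M {y | y ∈ D ∧ M y b = true}) :
    M b b = true := by
  by_contra hc
  have hc : M b b = false := by simpa using hc
  obtain ⟨p, hp, h1, h2, h3⟩ := plus hs hP hD hb.1 hc hn (hf hc)
  obtain ⟨y, hy, hby, hpy⟩ := hb.2 p hp ⟨b, hb.1, h2, hc⟩
  have := h3 y hy hby
  rw [hpy] at this
  exact Bool.noConfusion this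

/-- step (B): no edge leaves the row of a maximal vertex -/
theorem no_edge [Finite X] {D : Set X} (hD : Cyl M D) (hf : ¬ HasP4 M D) {f k h : X}
    (hfm : Mx M D f) (hk : k ∈ D) (hh : h ∈ D) (hfk : M f k = true) (hhk : M h k = true)
    (hfh : M f h = false) : False := by
  have sub : ∀ {E : Set X}, E ⊆ D → ¬ HasP4 M E := fun hE hE' => hf (hasP4_mono hE hE')
  have hff : M f f = true := mx_loop hs hP hD hfm ⟨k, hk, hfk⟩ (fun _ => sub (fun y hy => hy.1))
  have hfD := hfm.1
  obtain ⟨r, ⟨⟨hrD, hrk⟩, hrf⟩, hr⟩ := root hs hP (cyl_cut (cyl_cut hD k true) f false)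
    ⟨h, ⟨hh, hhk⟩, by rw [hs h f, hfh]⟩ (sub (fun y hy => hy.1.1))
  have hrr : M r r = false := by
    by_contra hc
    have hc : M r r = true := by simpa using hc
    obtain ⟨m, hm, m1, m2, m3, m4⟩ := mid_in hP hD hrD hfD (by rw [hc, hff])
      (by rw [hrf, hc]; rfl)
    rw [hc] at m1 m2 m3
    have hmk : M m k = true := by rw [m4 k (by rw [hrk, hfk]), hrk]
    have := hr m ⟨⟨hm, hmk⟩, by simpa using m3⟩
    rw [hc, hs r m, m2] at this
    simp at this
  have hNr : ∀ s ∈ D, M r s = true → M f s = true := by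
    intro s hsD hrs
    by_contra hc
    have hc : M f s = false := by simpa using hc
    have hsk : M s k = false := by
      by_contra h1
      have h1 : M s k = true := by simpa using h1
      have := hr s ⟨⟨hsD, h1⟩, by rw [hs s f, hc]⟩
      rw [hrs, hrr] at this
      exact Bool.noConfusion this
    exact hf ⟨f, k, r, s, hfD, hk, hrD, hsD, hfk, by rw [hs k r, hrk], hrs,
      by rw [hs f r, hrf], hc, by rw [hs k s, hsk]⟩
  obtain ⟨p, hp, h1, h2, h3⟩ := plus hs hP hD hrD hrr ⟨k, hk, hrk⟩ (sub (fun y hy => hy.1))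
  have hfp : M f p = true := hNr p hp (by rw [hs r p, h2])
  obtain ⟨y, hy, hfy, hpy⟩ := hfm.2 p hp ⟨r, hrD, h2, by rw [hs f r, hrf]⟩
  have hyr : M y r = false := by
    by_contra hc
    have hc : M y r = true := by simpa using hc
    have := h3 y hy (by rw [hs r y, hc])
    rw [hpy] at this
    exact Bool.noConfusion this
  exact hf ⟨y, f, p, r, hy, hfD, hp, hrD, by rw [hs y f, hfy], hfp, h2, by rw [hs y p, hpy],
    hyr, by rw [hs f r, hrf]⟩

/-- step (2) -/
theorem two [Finite X] {C : Set X} (hC : Cyl M C) {b c : X} (hc : c ∈ C)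
    (hcc : M c c = true) (hbc : M b c = true)
    (hn : ∃ y ∈ C, M y b = true ∧ M y c = false)
    (hf : ¬ HasP4 M {y | y ∈ C ∧ M y c = false}) :
    ∃ a ∈ C, M a a = false ∧ M a b = true ∧ M a c = false ∧
      ∀ y ∈ C, M y b = true → M y c = false → M a y = false := by
  obtain ⟨y, hy, hyb, hyc⟩ := hn
  obtain ⟨a, ⟨⟨haC, hac⟩, hab⟩, ha⟩ := root hs hP (cyl_cut (cyl_cut hC c false) b true)
    ⟨y, ⟨hy, hyc⟩, hyb⟩ (fun h => hf (hasP4_mono (fun y hy => hy.1) h))
  have haa : M a a = false := by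
    by_contra h1
    have h1 : M a a = true := by simpa using h1
    obtain ⟨g, hg, g1, g2, g3, g4⟩ := mid_in hP hC haC hc (by rw [h1, hcc])
      (by rw [hac, h1]; rfl)
    rw [h1] at g1 g2 g3
    have hgb : M g b = true := by
      rw [g4 b (by rw [hab, hs c b, hbc]), hab]
    have := ha g ⟨⟨hg, by simpa using g3⟩, hgb⟩
    rw [h1, hs a g, g2] at this
    simp at this
  refine ⟨a, haC, haa, hab, hac, ?_⟩
  intro y hy h1 h2
  rw [ha y ⟨⟨hy, h2⟩, h1⟩, haa]

/-- the main lemma when no vertex is full on the cylinder -/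
theorem good_of_no_full [Finite X] {C : Set X} (hC : Cyl M C) (hP4 : HasP4 M C)
    (hmin : ∀ D, Cyl M D → D ⊂ C → ¬ HasP4 M D)
    (hnf : ¬ ∃ f ∈ C, ∀ y ∈ C, M f y = true) :
    ∃ a b c d, a ∈ C ∧ b ∈ C ∧ c ∈ C ∧ d ∈ C ∧ IsP4 M a b c d ∧
      M a a = false ∧ M b b = true ∧ M c c = true ∧ M d d = false ∧
      ∀ g ∈ C, ¬ (M g a ≠ M g d ∧ M g b ≠ M g c) := by
  have cut : ∀ (w : X) (t : Bool), (∃ y ∈ C, M y w ≠ t) →
      ¬ HasP4 M {y | y ∈ C ∧ M y w = t} := by
    intro w t ⟨y, hy, hyt⟩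
    exact hmin _ (cyl_cut hC w t) ⟨fun y hy => hy.1, fun hh => hyt (hh hy).2⟩
  have plusC : ∀ w ∈ C, M w w = false → (∃ y ∈ C, M w y = true) →
      ∃ p ∈ C, M p p = true ∧ M p w = true ∧ ∀ y ∈ C, M w y = true → M p y = true := by
    intro w hw hww hn
    exact plus hs hP hC hw hww hn (cut w true ⟨w, hw, by rw [hww]; simp⟩)
  obtain ⟨p1, p2, p3, p4, i1, i2, i3, i4, e12, e23, e34, n13, n14, n24⟩ := hP4
  obtain ⟨b, hbC, hbsub, hbm⟩ := exists_mx M C p1 i1
  have hbp2 : M b p2 = true := hbsub p2 i2 e12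
  have hbb : M b b = true := mx_loop hs hP hC hbm ⟨p2, i2, hbp2⟩
    (fun h => cut b true ⟨b, hbC, by rw [h]; simp⟩)
  -- b is not full
  obtain ⟨y0, hy0, hby0⟩ : ∃ y ∈ C, M b y = false := by
    by_contra hcon
    push Not at hcon
    exact hnf ⟨b, hbC, fun y hy => by simpa using hcon y hy⟩
  -- an edge leaving N(b)
  obtain ⟨y, z, hyC, hzC, hyz, hby, hbz⟩ : ∃ y z, y ∈ C ∧ z ∈ C ∧ M y z = true ∧
      M b y = true ∧ M b z = false := by
    have ht : ¬ (M b p1 = true ∧ M b p2 = true ∧ M b p3 = true ∧ M b p4 = true) := by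
      rintro ⟨h1, h2, h3, h4⟩
      apply cut b true ⟨y0, hy0, by rw [hs y0 b, hby0]; simp⟩
      exact ⟨p1, p2, p3, p4, ⟨i1, by rw [hs, h1]⟩, ⟨i2, by rw [hs, h2]⟩, ⟨i3, by rw [hs, h3]⟩,
        ⟨i4, by rw [hs, h4]⟩, e12, e23, e34, n13, n14, n24⟩
    cases h1 : M b p1
    · exact ⟨p2, p1, i2, i1, by rw [hs, e12], hbp2, h1⟩
    · cases h3 : M b p3
      · exact ⟨p2, p3, i2, i3, e23, hbp2, h3⟩
      · cases h4 : M b p4
        · exact ⟨p3, p4, i3, i4, e34, h3, h4⟩
        · exact (ht ⟨h1, hbp2, h3, h4⟩).elim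
  obtain ⟨c1, hc1, hc1c1, hc1b, hc1z⟩ : ∃ c ∈ C, M c c = true ∧ M c b = true ∧ M c z = true := by
    cases hyy : M y y
    · obtain ⟨p, hp, h1, h2, h3⟩ := plusC y hyC hyy ⟨z, hzC, hyz⟩
      exact ⟨p, hp, h1, h3 b hbC (by rw [hs, hby]), h3 z hzC hyz⟩
    · exact ⟨y, hyC, hyy, by rw [hs, hby], hyz⟩
  have cutb : ¬ HasP4 M {y | y ∈ C ∧ M y b = false} := cut b false ⟨b, hbC, by rw [hbb]; simp⟩
  obtain ⟨d1, hd1, hd1d1, hd1c, hd1b, hd1iso⟩ := two hs hP hC (b := c1) hbC hbb hc1b
    ⟨z, hzC, by rw [hs, hc1z], by rw [hs, hbz]⟩ cutb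
  obtain ⟨q, hq, hqq, hqd1, hqsub⟩ := plusC d1 hd1 hd1d1 ⟨c1, hc1, hd1c⟩
  have hqc : M q c1 = true := hqsub c1 hc1 hd1c
  have hqb : M q b = true := by
    by_contra hc
    have hc : M q b = false := by simpa using hc
    have := hd1iso q hq hqc hc
    rw [hs, hqd1] at this
    exact Bool.noConfusion this
  -- step (3)
  obtain ⟨d, hd, hdd, hdb, ⟨t, htC, hdt⟩, hdsub⟩ : ∃ d ∈ C, M d d = false ∧ M d b = false ∧
      (∃ t ∈ C, M d t = true) ∧ ∀ y ∈ C, M d y = true → M b y = true := by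
    by_cases hcase : ∀ y ∈ C, M d1 y = true → M b y = true
    · exact ⟨d1, hd1, hd1d1, hd1b, ⟨c1, hc1, hd1c⟩, hcase⟩
    push Not at hcase
    obtain ⟨h, hh, hd1h, hbh⟩ := hcase
    have hbh : M b h = false := by simpa using hbh
    have hG : Cyl M {y | y ∈ C ∧ M y b = false} := cyl_cut hC b false
    have hd1G : d1 ∈ {y | y ∈ C ∧ M y b = false} := ⟨hd1, hd1b⟩
    obtain ⟨f1, hf1, hf1f1, hf1d1, hf1sub⟩ := plus hs hP hG hd1G hd1d1
      ⟨h, ⟨hh, by rw [hs, hbh]⟩, hd1h⟩ (fun h' => cutb (hasP4_mono (fun y hy => hy.1) h'))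
    obtain ⟨f, hf, hfsub, hfm⟩ := exists_mx M _ f1 hf1
    have hfd1 : M f d1 = true := hfsub d1 hd1G hf1d1
    have hff : M f f = true := mx_loop hs hP hG hfm ⟨d1, hd1G, hfd1⟩
      (fun _ h' => cutb (hasP4_mono (fun y hy => hy.1) h'))
    obtain ⟨g, hg, g1, g2, g3, g4⟩ := mid_in hP hC hf.1 hbC (by rw [hff, hbb])
      (by rw [hf.2, hff]; rfl)
    rw [hff] at g1 g2 g3
    have g1 : M g g = false := by simpa using g1
    have g2 : M g f = false := by simpa using g2
    have g3 : M g b = false := by simpa using g3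
    refine ⟨g, hg, g1, g3, ⟨q, hq, ?_⟩, ?_⟩
    · have h1 : M f q = true := by
        rw [hs]; exact hqsub f hf.1 (by rw [hs, hfd1])
      rw [g4 q (by rw [h1, hs b q, hqb]), h1]
    · intro s hsC hgs
      by_contra hc
      have hc : M b s = false := by simpa using hc
      have hfs : M f s = true := by
        by_contra h2
        have h2 : M f s = false := by simpa using h2
        rw [g4 s (by rw [h2, hc]), h2] at hgs
        exact Bool.noConfusion hgs
      exact no_edge hs hP hG cutb hfm (k := s) (h := g) ⟨hsC, by rw [hs, hc]⟩ ⟨hg, g3⟩ hfs hgs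
        (by rw [hs, g2])
  -- step (4)
  obtain ⟨c, hc, hcc, hcd, hcsub⟩ := plusC d hd hdd ⟨t, htC, hdt⟩
  have hbc : M b c = true := hdsub c hc (by rw [hs, hcd])
  have hbd : M b d = false := by rw [hs, hdb]
  obtain ⟨y1, hy1, hby1, hcy1⟩ := hbm.2 c hc ⟨d, hd, hcd, hbd⟩
  obtain ⟨a, ha, haa, hab, hac, haiso⟩ := two hs hP hC (b := b) hc hcc hbc
    ⟨y1, hy1, by rw [hs, hby1], by rw [hs, hcy1]⟩ (cut c false ⟨c, hc, by rw [hcc]; simp⟩)
  have had : M a d = false := by
    by_contra h1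
    have h1 : M a d = true := by simpa using h1
    have := hcsub a ha (by rw [hs, h1])
    rw [hs, hac] at this
    exact Bool.noConfusion this
  refine ⟨a, b, c, d, ha, hbC, hc, hd, ⟨hab, hbc, hcd, hac, had, hbd⟩, haa, hbb, hcc, hdd, ?_⟩
  rintro g hg ⟨hg1, hg2⟩
  cases hgd : M g d
  · -- g does not see d, so sees a
    have hga : M g a = true := by
      rw [hgd] at hg1; simpa using hg1
    cases hgb : M g b
    · have hgc : M g c = true := by
        rw [hgb] at hg2
        cases h : M g c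
        · exact (hg2 h.symm).elim
        · rfl
      -- main case
      have hE : Cyl M {y | y ∈ C ∧ M y d = false} := cyl_cut hC d false
      have hEf : ¬ HasP4 M {y | y ∈ C ∧ M y d = false} :=
        cut d false ⟨t, htC, by rw [hs, hdt]; simp⟩
      have haE : a ∈ {y | y ∈ C ∧ M y d = false} := ⟨ha, had⟩
      have hbE : b ∈ {y | y ∈ C ∧ M y d = false} := ⟨hbC, hbd⟩
      have hgE : g ∈ {y | y ∈ C ∧ M y d = false} := ⟨hg, hgd⟩
      obtain ⟨f1, hf1, hf1f1, hf1a, hf1sub⟩ := plus hs hP hE haE haa ⟨b, hbE, hab⟩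
        (fun h' => hEf (hasP4_mono (fun y hy => hy.1) h'))
      obtain ⟨f, hf, hfsub, hfm⟩ := exists_mx M _ f1 hf1
      have hfa : M f a = true := hfsub a haE hf1a
      have hfb : M f b = true := hfsub b hbE (hf1sub b hbE hab)
      have hfg : M f g = true := hfsub g hgE (hf1sub g hgE (by rw [hs, hga]))
      have hfc : M f c = true := by
        by_contra h1
        have h1 : M f c = false := by simpa using h1
        have := haiso f hf.1 hfb h1
        rw [hs, hfa] at this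
        exact Bool.noConfusion this
      obtain ⟨v, hv, hbv, hfv⟩ := hbm.2 f hf.1 ⟨g, hg, hfg, by rw [hs, hgb]⟩
      have hvd : M v d = true := by
        by_contra h1
        have h1 : M v d = false := by simpa using h1
        exact no_edge hs hP hE hEf hfm (k := b) (h := v) hbE ⟨hv, h1⟩ hfb (by rw [hs, hbv]) hfv
      have hcv : M c v = true := hcsub v hv (by rw [hs, hvd])
      apply cut c true ⟨a, ha, by rw [hac]; simp⟩
      exact ⟨f, b, v, d, ⟨hf.1, hfc⟩, ⟨hbC, hbc⟩, ⟨hv, by rw [hs, hcv]⟩, ⟨hd, by rw [hs, hcd]⟩,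
        hfb, hbv, hvd, hfv, hf.2, hbd⟩
    · have hgc : M g c = false := by
        rw [hgb] at hg2
        cases h : M g c
        · rfl
        · exact (hg2 h.symm).elim
      have := haiso g hg hgb hgc
      rw [hs, hga] at this
      exact Bool.noConfusion this
  · have h1 := hcsub g hg (by rw [hs, hgd])
    have h2 := hdsub g hg (by rw [hs, hgd])
    rw [hs] at h1 h2
    exact hg2 (by rw [h1, h2])

end

/-- THE MAIN LEMMA. -/
theorem good [Finite X] {M : X → X → Bool} (hs : ∀ u v, M u v = M v u) (hP : Pairs M)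
    {C : Set X} (hC : Cyl M C) (hP4 : HasP4 M C)
    (hmin : ∀ D, Cyl M D → D ⊂ C → ¬ HasP4 M D) :
    ∃ a b c d, a ∈ C ∧ b ∈ C ∧ c ∈ C ∧ d ∈ C ∧ IsP4 M a b c d ∧
      M a a = false ∧ M b b = true ∧ M c c = true ∧ M d d = false ∧
      ∀ g ∈ C, ¬ (M g a ≠ M g d ∧ M g b ≠ M g c) := by
  by_cases hnf : ∃ f ∈ C, ∀ y ∈ C, M f y = true
  · -- complement
    obtain ⟨f, hf, hfall⟩ := hnf
    let M' : X → X → Bool := fun u v => !M u v
    have hs' : ∀ u v, M' u v = M' v u := fun u v => by simp only [M', hs u v]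
    have hcyl : ∀ D, Cyl M D ↔ Cyl M' D := by
      intro D
      constructor
      · rintro ⟨S, rfl⟩
        refine ⟨(fun s : X × Bool => (s.1, !s.2)) '' S, ?_⟩
        ext y
        simp only [Set.mem_setOf_eq, Set.forall_mem_image, M']
        constructor
        · intro h s hs1
          rw [h s hs1]
        · intro h s hs1
          have := h hs1
          simpa using this
      · rintro ⟨S, rfl⟩
        refine ⟨(fun s : X × Bool => (s.1, !s.2)) '' S, ?_⟩
        ext y
        simp only [Set.mem_setOf_eq, Set.forall_mem_image, M']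
        constructor
        · intro h s hs1
          rw [← h s hs1]; simp
        · intro h s hs1
          have := h hs1
          rw [this]; simp
    have hP' : Pairs M' := by
      intro u v h1 h2
      have h1' : M u u = M v v := by simpa [M'] using h1
      have h2' : M u v = !M u u := by simpa [M'] using h2
      obtain ⟨g, g1, g2, g3, g4⟩ := hP u v h1' h2'
      refine ⟨g, by simp [M', g1], by simp [M', g2], by simp [M', g3], ?_⟩
      intro y hy
      have : M u y = M v y := by simpa [M'] using hy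
      simp [M', g4 y this]
    have hp : ∀ a b c d, IsP4 M a b c d → IsP4 M' b d a c := by
      rintro a b c d ⟨h1, h2, h3, h4, h5, h6⟩
      refine ⟨?_, ?_, ?_, ?_, ?_, ?_⟩
      · simp [M', h6]
      · simp [M', hs d a, h5]
      · simp [M', h4]
      · simp [M', hs b a, h1]
      · simp [M', h2]
      · simp [M', hs d c, h3]
    have hp' : ∀ a b c d, IsP4 M' a b c d → IsP4 M c a d b := by
      rintro a b c d ⟨h1, h2, h3, h4, h5, h6⟩
      simp only [M', Bool.not_eq_true', Bool.not_eq_false'] at h1 h2 h3 h4 h5 h6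
      exact ⟨by rw [hs]; exact h4, h5, by rw [hs]; exact h6, h3, by rw [hs]; exact h2, h1⟩
    have hhas : ∀ D, HasP4 M' D → HasP4 M D := by
      rintro D ⟨a, b, c, d, ha, hb, hc, hd, h⟩
      exact ⟨c, a, d, b, hc, ha, hd, hb, hp' _ _ _ _ h⟩
    have hhas' : HasP4 M' C := by
      obtain ⟨a, b, c, d, ha, hb, hc, hd, h⟩ := hP4
      exact ⟨b, d, a, c, hb, hd, ha, hc, hp _ _ _ _ h⟩
    obtain ⟨a, b, c, d, ha, hb, hc, hd, h, la, lb, lc, ld, hg⟩ :=
      good_of_no_full hs' hP' ((hcyl C).1 hC) hhas'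
        (fun D hD hDC hD4 => hmin D ((hcyl D).2 hD) hDC (hhas D hD4))
        (by
          rintro ⟨z, hz, hzall⟩
          have h1 := hzall f hf
          simp only [M', hs z f, hfall z hz] at h1
          exact Bool.noConfusion h1)
    refine ⟨c, a, d, b, hc, ha, hd, hb, hp' _ _ _ _ h, ?_, ?_, ?_, ?_, ?_⟩
    · simpa [M'] using lc
    · simpa [M'] using la
    · simpa [M'] using ld
    · simpa [M'] using lb
    · intro g hgC ⟨h1, h2⟩
      apply hg g hgC
      refine ⟨?_, ?_⟩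
      · simpa [M'] using h2
      · intro h3
        apply h1
        have : M g b = M g c := by simpa [M'] using h3
        exact this.symm
  · exact good_of_no_full hs hP hC hP4 hmin hnf

/-- Final form: if the whole matrix has an induced path, some induced path with loops 0110 has
no bad point that agrees with it wherever it is constant. -/
theorem good_final [Finite X] {M : X → X → Bool} (hs : ∀ u v, M u v = M v u) (hP : Pairs M)
    (h : ∃ a b c d, IsP4 M a b c d) :
    ∃ a b c d, IsP4 M a b c d ∧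
      M a a = false ∧ M b b = true ∧ M c c = true ∧ M d d = false ∧
      ∀ g, (∀ y, M a y = M b y → M a y = M c y → M a y = M d y → M g y = M a y) →
        ¬ (M g a ≠ M g d ∧ M g b ≠ M g c) := by
  classical
  obtain ⟨a0, b0, c0, d0, h0⟩ := h
  let T : Set (Set X) := {C | Cyl M C ∧ HasP4 M C}
  have hT : T.Nonempty := ⟨Set.univ, cyl_univ M, a0, b0, c0, d0, trivial, trivial, trivial,
    trivial, h0⟩
  obtain ⟨C, hCT, hCmin⟩ := Set.exists_min_image T (fun C => C.ncard) (Set.toFinite T) hT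
  obtain ⟨a, b, c, d, ha, hb, hc, hd, hp, la, lb, lc, ld, hg⟩ := good hs hP hCT.1 hCT.2 (by
    intro D hD hDC hD4
    have h1 := hCmin D ⟨hD, hD4⟩
    have h2 := Set.ncard_lt_ncard hDC (Set.toFinite C)
    omega)
  refine ⟨a, b, c, d, hp, la, lb, lc, ld, ?_⟩
  intro g hgy
  apply hg
  obtain ⟨S, hS⟩ := hCT.1
  rw [hS] at ha hb hc hd ⊢
  intro s hs1
  have e1 := ha s hs1
  have e2 := hb s hs1
  have e3 := hc s hs1
  have e4 := hd s hs1
  rw [hgy s.1 (by rw [e1, e2]) (by rw [e1, e3]) (by rw [e1, e4]), e1]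

end Pool.Agent.H56.P4
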