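import Pool.Agent.H56.P4.Good
import Pool.Agent.H17.P3.Defs

/-! helper17's matrix statement `P3` from `good_final`. -/

namespace Pool.Agent.H56.P4

/-- 0/1 matrix over `ZMod 2` as a Boolean matrix -/
def toB {X : Type} (M : X → X → ZMod 2) : X → X → Bool := fun u v => decide (M u v = 1)

theorem z2 (x : ZMod 2) : x = 0 ∨ x = 1 := by
  revert x; decide

theorem toB_eq {X : Type} (M : X → X → ZMod 2) (a b c d : X) :
    toB M a b = toB M c d ↔ M a b = M c d := by
  unfold toB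
  rcases z2 (M a b) with h1 | h1 <;> rcases z2 (M c d) with h2 | h2 <;> rw [h1, h2] <;> decide

theorem toB_neg {X : Type} (M : X → X → ZMod 2) (a b c d : X) :
    toB M a b = (!toB M c d) ↔ M a b ≠ M c d := by
  unfold toB
  rcases z2 (M a b) with h1 | h1 <;> rcases z2 (M c d) with h2 | h2 <;> rw [h1, h2] <;> decide

theorem toB_true {X : Type} (M : X → X → ZMod 2) (a b : X) : toB M a b = true ↔ M a b = 1 := by
  unfold toB; simp

theorem toB_false {X : Type} (M : X → X → ZMod 2) (a b : X) : toB M a b = false ↔ M a b = 0 := by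
  unfold toB
  rcases z2 (M a b) with h1 | h1 <;> rw [h1] <;> decide

theorem p3 : Pool.Agent.H17.P3.P3 := by
  intro X _ M hs hP hS a b c d h
  have hs' : ∀ u v, toB M u v = toB M v u := fun u v => (toB_eq M _ _ _ _).2 (hs u v)
  have hP' : Pairs (toB M) := by
    intro u v h1 h2
    obtain ⟨g, g1, g2, g3, g4⟩ := hP u v ((toB_eq M _ _ _ _).1 h1) ((toB_neg M _ _ _ _).1 h2)
    refine ⟨g, (toB_neg M _ _ _ _).2 g1, (toB_neg M _ _ _ _).2 (by rw [g2]; exact g1),
      (toB_neg M _ _ _ _).2 (by rw [g3]; exact g1), ?_⟩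
    intro y hy
    exact (toB_eq M _ _ _ _).2 (g4 y ((toB_eq M _ _ _ _).1 hy))
  obtain ⟨a, b, c, d, ⟨p1, p2, p3, p4, p5, p6⟩, la, lb, lc, ld, hg⟩ := good_final hs' hP'
    ⟨a, b, c, d, (toB_true M _ _).2 h.ab, (toB_true M _ _).2 h.bc, (toB_true M _ _).2 h.cd,
      (toB_false M _ _).2 h.ac, (toB_false M _ _).2 h.ad, (toB_false M _ _).2 h.bd⟩
  obtain ⟨g, hb, hy⟩ := hS a b c d
    ⟨(toB_true M _ _).1 p1, (toB_true M _ _).1 p2, (toB_true M _ _).1 p3,
      (toB_false M _ _).1 p4, (toB_false M _ _).1 p5, (toB_false M _ _).1 p6⟩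
    ((toB_false M _ _).1 la) ((toB_true M _ _).1 lb) ((toB_true M _ _).1 lc)
    ((toB_false M _ _).1 ld)
  apply hg g
  · intro y e1 e2 e3
    exact (toB_eq M _ _ _ _).2 (hy y ((toB_eq M _ _ _ _).1 e1) ((toB_eq M _ _ _ _).1 e2)
      ((toB_eq M _ _ _ _).1 e3))
  · exact ⟨fun e => hb.1 ((toB_eq M _ _ _ _).1 e), fun e => hb.2 ((toB_eq M _ _ _ _).1 e)⟩

end Pool.Agent.H56.P4
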